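import Pool.Agent.H95.GN.UniT
import Pool.Agent.H35.K2S.Stab

/-!
# Remez inequality in the time, from below

Finitely many polynomials in the time which are functions of the line and of the window: for most
samples of `A` their values on the whole window are bounded by the values at the own time.
-/

set_option autoImplicit false

namespace Pool.GEN.Rt

open Finset Real
open Pool.Agent.H49.Ent Pool.Agent.H32.Dense Pool.STK Pool.KA Pool.KSAT Pool.K2S
open Pool.BFL (Pl Pb)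

variable {m J : ℕ}

/-- A polynomial in one variable. -/
noncomputable def em (f : Polynomial ℝ) : Pl 1 := Polynomial.aeval (MvPolynomial.X 0) f

theorem eval_em (f : Polynomial ℝ) (b : Fin 1 → ℝ) : MvPolynomial.eval b (em f) = f.eval (b 0) := by
  unfold em
  rw [Polynomial.aeval_eq_sum_range, map_sum, Polynomial.eval_eq_sum_range]
  refine Finset.sum_congr rfl fun k _ => ?_
  rw [MvPolynomial.smul_eval, map_pow, MvPolynomial.eval_X]

theorem deg_em {f : Polynomial ℝ} {K : ℕ} (h : f.natDegree ≤ K) : (em f).totalDegree ≤ K := by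
  unfold em
  rw [Polynomial.aeval_eq_sum_range]
  refine MvPolynomial.totalDegree_finsetSum_le fun k hk => ?_
  refine (MvPolynomial.totalDegree_smul_le _ _).trans ?_
  rw [MvPolynomial.totalDegree_X_pow]
  have := mem_range.1 hk
  omega

/-- The maximum on the window. -/
theorem exmax (f : Polynomial ℝ) (a b : ℝ) (hab : a ≤ b) :
    ∃ s ∈ Set.Icc a b, ∀ s' ∈ Set.Icc a b, |f.eval s'| ≤ |f.eval s| := by
  obtain ⟨s, hs, h⟩ := isCompact_Icc.exists_isMaxOn (Set.nonempty_Icc.2 hab)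
    (f := fun s => |f.eval s|) (f.continuous.abs.continuousOn)
  exact ⟨s, hs, fun s' hs' => h hs'⟩

open Classical in
theorem Pb_false {Ω : Type} [Fintype Ω] {p : Ω → ℝ} (hp : ∀ ω, 0 ≤ p ω) {A : Ω → Prop}
    (h : ∀ ω, 0 < p ω → ¬ A ω) : Pb p A = 0 := by
  unfold Pb
  refine Finset.sum_eq_zero fun ω _ => ?_
  by_cases hA : A ω
  · rw [if_pos hA]
    rcases (hp ω).eq_or_lt with h0 | h0
    · exact h0.symm
    · exact absurd hA (h ω h0)
  · rw [if_neg hA]

open Classical in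
theorem Pb_true {Ω : Type} [Fintype Ω] {p : Ω → ℝ} (hp : IsLaw p) {A : Ω → Prop}
    (h : ∀ ω, 0 < p ω → A ω) : Pb p A = 1 := by
  unfold Pb
  rw [← hp.sum_one]
  refine Finset.sum_congr rfl fun ω _ => ?_
  by_cases hA : A ω
  · rw [if_pos hA]
  · rw [if_neg hA]
    rcases (hp.nonneg ω).eq_or_lt with h0 | h0
    · exact h0
    · exact absurd (h ω h0) hA

/-- One polynomial, one law. -/
theorem one (K : ℕ) : ∃ C : ℝ, 1 ≤ C ∧ ∀ (m J : ℕ) (F : Fam m J) (q : F.Ω → ℝ) (w X : ℕ)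
    (e : ℝ) (f : ((Fin m → ℝ) × (Fin m → ℝ)) × F.ζ × ℕ → Polynomial ℝ), IsLaw q →
    (∀ s, (f s).natDegree ≤ K) → w + X ≤ J → 0 ≤ e →
    (J : ℝ) * Real.log 2 - e ≤ CH q F.T (fun ω => (F.l ω, F.Z ω)) →
    C * (e + 1) ≤ X * Real.log 2 →
    ∃ ω, 0 < q ω ∧ ∀ s, |s - F.t ω| ≤ 2 / 2 ^ w →
      |(f (slam F w ω)).eval s| ≤ Real.exp (C * (e + 1)) * |(f (slam F w ω)).eval (F.t ω)| := by
  classical
  obtain ⟨C, hC, h⟩ := Pool.UNJ.uni_core 1 K 4 (by norm_num)
  refine ⟨2 * C + 1, by linarith, ?_⟩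
  intro m J F q w X e f hq hf hw he0 he hX
  by_contra hcon
  push Not at hcon
  have hl2 : 0 < Real.log 2 := Real.log_pos (by norm_num)
  have h2w : (0 : ℝ) < 2 ^ w := by positivity
  -- the maximum on the long window
  have hmax : ∀ x : ((Fin m → ℝ) × (Fin m → ℝ)) × F.ζ × ℕ, ∃ s ∈ Set.Icc
      (((x.2.2 : ℕ) : ℝ) / 2 ^ w - 2 / 2 ^ w) (((x.2.2 : ℕ) : ℝ) / 2 ^ w + 3 / 2 ^ w),
      ∀ s' ∈ Set.Icc (((x.2.2 : ℕ) : ℝ) / 2 ^ w - 2 / 2 ^ w)
        (((x.2.2 : ℕ) : ℝ) / 2 ^ w + 3 / 2 ^ w), |(f x).eval s'| ≤ |(f x).eval s| := fun x => by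
    refine exmax _ _ _ ?_
    have : (0 : ℝ) < 2 / 2 ^ w := by positivity
    have : (0 : ℝ) < 3 / 2 ^ w := by positivity
    linarith
  choose sm hsm hsm' using hmax
  set S : ((Fin m → ℝ) × (Fin m → ℝ)) × F.ζ × ℕ → ℝ := fun x => |(f x).eval (sm x)| with hS
  set E := Real.exp (-((2 * C + 1) * (e + 1))) with hE
  have hE0 : 0 < E := Real.exp_pos _
  set τ : ((Fin m → ℝ) × (Fin m → ℝ)) × F.ζ × ℕ → ℝ := fun x => if 0 < S x then E * S x else 1
    with hτ
  have hτ0 : ∀ x, 0 < τ x := fun x => by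
    rw [hτ]
    simp only
    split_ifs with h0
    · positivity
    · norm_num
  have htw : ∀ ω : F.Ω, (F.T1 w ω : ℝ) / 2 ^ w ≤ F.t ω ∧
      F.t ω ≤ (F.T1 w ω : ℝ) / 2 ^ w + 1 / 2 ^ w := by
    intro ω
    have h1 := Pool.UNJ.floor_t F (by omega : w ≤ J) ω
    have h3 := Int.floor_le ((2 : ℝ) ^ w * F.t ω)
    have h4 := Int.lt_floor_add_one ((2 : ℝ) ^ w * F.t ω)
    rw [h1] at h3 h4
    push_cast at h3 h4
    constructor
    · rw [div_le_iff₀ h2w]
      linarith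
    · rw [← add_div, le_div_iff₀ h2w]
      linarith
  -- the values at the own time
  have hown : ∀ ω, 0 < q ω → 0 < S (slam F w ω) ∧
      |(f (slam F w ω)).eval (F.t ω)| ≤ E * S (slam F w ω) := by
    intro ω hω
    obtain ⟨s, hs1, hs2⟩ := hcon ω hω
    have hsI : s ∈ Set.Icc (((slam F w ω).2.2 : ℝ) / 2 ^ w - 2 / 2 ^ w)
        (((slam F w ω).2.2 : ℝ) / 2 ^ w + 3 / 2 ^ w) := by
      have e1 : (((slam F w ω).2.2 : ℕ) : ℝ) = (F.T1 w ω : ℝ) := rfl
      rw [e1]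
      obtain ⟨t1, t2⟩ := htw ω
      have t3 := abs_le.1 hs1
      have e2 : (3 : ℝ) / 2 ^ w = 2 / 2 ^ w + 1 / 2 ^ w := by ring
      rw [e2]
      constructor <;> linarith [t3.1, t3.2]
    have h1 : |(f (slam F w ω)).eval s| ≤ S (slam F w ω) := hsm' _ s hsI
    have h2 := abs_nonneg ((f (slam F w ω)).eval (F.t ω))
    have h3 : Real.exp ((2 * C + 1) * (e + 1)) * |(f (slam F w ω)).eval (F.t ω)| <
      S (slam F w ω) := hs2.trans_le h1
    have h4 : 0 < Real.exp ((2 * C + 1) * (e + 1)) := Real.exp_pos _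
    refine ⟨lt_of_le_of_lt (by positivity) h3, ?_⟩
    rw [hE, Real.exp_neg, inv_mul_eq_div, le_div_iff₀ h4]
    linarith
  have hT := Pool.UNJ.full_cel_t (F := F) hq he hw (c := slam F w) (fun ω ω' _ _ h => h)
  have key := h F.Ω (((Fin m → ℝ) × (Fin m → ℝ)) × F.ζ × ℕ) q X (fun _ => w) (fun ω _ => F.t ω)
    (slam F w) (fun x => em (f x)) (fun ω => 0 < q ω) τ e (1 / 2) hq (fun x => deg_em (hf x)) he0
    (by norm_num) (by norm_num) hτ0 ?_ ?_ ?_ ?_
  · -- contradiction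
    have h1 : ∀ ω, 0 < q ω → ¬ ∀ b : Fin 1 → ℝ, (∀ i, |b i - F.t ω| ≤ 4 / 2 ^ w) →
        |MvPolynomial.eval b (em (f (slam F w ω)))| ≤
          Real.exp (C * (e + 1) / (1 / 2)) * τ (slam F w ω) := by
      intro ω hω hb
      obtain ⟨hS0, -⟩ := hown ω hω
      have h2 := hb (fun _ => sm (slam F w ω)) (fun _ => by
        have h3 := hsm (slam F w ω)
        have e1 : (((slam F w ω).2.2 : ℕ) : ℝ) = (F.T1 w ω : ℝ) := rfl
        rw [e1] at h3
        obtain ⟨t1, t2⟩ := htw ω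
        have e2 : (4 : ℝ) / 2 ^ w = 3 / 2 ^ w + 1 / 2 ^ w := by ring
        have e3 : (3 : ℝ) / 2 ^ w = 2 / 2 ^ w + 1 / 2 ^ w := by ring
        have e4 : (0 : ℝ) < 1 / 2 ^ w := by positivity
        rw [abs_le, e2]
        constructor <;> linarith [h3.1, h3.2])
      rw [eval_em] at h2
      have h3 : τ (slam F w ω) = E * S (slam F w ω) := by
        rw [hτ]
        simp only
        rw [if_pos hS0]
      rw [h3, hE, ← mul_assoc, ← Real.exp_add] at h2
      have h4 : Real.exp (C * (e + 1) / (1 / 2) + -((2 * C + 1) * (e + 1))) < 1 := by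
        rw [Real.exp_lt_one_iff]
        have : C * (e + 1) / (1 / 2) = 2 * C * (e + 1) := by ring
        rw [this]
        nlinarith
      have h5 : S (slam F w ω) ≤ Real.exp (C * (e + 1) / (1 / 2) + -((2 * C + 1) * (e + 1))) *
          S (slam F w ω) := h2
      nlinarith
    have h6 := Pb_true hq h1
    have h7 : Pb q (fun ω => ¬ ∀ b : Fin 1 → ℝ, (∀ i, |b i - F.t ω| ≤ 4 / 2 ^ w) →
        |MvPolynomial.eval b (em (f (slam F w ω)))| ≤
          Real.exp (C * (e + 1) / (1 / 2)) * τ (slam F w ω)) ≤ 1 / 2 := key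
    linarith
  · -- the time is full
    refine hT.trans (CH_mono_cond hq.nonneg ?_)
    intro ω ω' _ _ hh
    exact Prod.ext (Prod.ext_iff.1 hh).1 (Prod.ext_iff.1 (Prod.ext_iff.1 hh).2).1
  · rw [Pb_false hq.nonneg (fun ω hω => not_not.2 hω)]
    norm_num
  · have : C * (e + 1) / (1 / 2) ≤ (2 * C + 1) * (e + 1) := by
      have : C * (e + 1) / (1 / 2) = 2 * C * (e + 1) := by ring
      rw [this]
      nlinarith
    exact this.trans hX
  · intro ω hω
    obtain ⟨hS0, h1⟩ := hown ω hω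
    rw [eval_em]
    have h3 : τ (slam F w ω) = E * S (slam F w ω) := by
      rw [hτ]
      simp only
      rw [if_pos hS0]
    rw [h3]
    exact h1

/-- **Remez inequality in the time, from below.** -/
theorem rt (K : ℕ) : ∃ C : ℝ, 1 ≤ C ∧ ∀ (m J : ℕ) (F : Fam m J) (A : F.Ω → Prop) (w X : ℕ)
    (e η : ℝ) (N : ℕ)
    (f : Fin N → ((Fin m → ℝ) × (Fin m → ℝ)) × F.ζ × ℕ → Polynomial ℝ), IsLaw F.p →
    0 < Pe F.p A → (∀ i s, (f i s).natDegree ≤ K) → w + X ≤ J → 0 ≤ e → 0 < η →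
    (∀ B : F.Ω → Prop, Sub B A → η * Pe F.p A ≤ Pe F.p B →
      (J : ℝ) * Real.log 2 - e ≤ CH (cond F.p B True) F.T (fun ω => (F.l ω, F.Z ω))) →
    C * (e + 1) ≤ X * Real.log 2 →
    ∃ B : F.Ω → Prop, Sub B A ∧ (1 - N * η) * Pe F.p A ≤ Pe F.p B ∧ ∀ ω, B ω →
      ∀ (i : Fin N) (s : ℝ), |s - F.t ω| ≤ 2 / 2 ^ w →
        |(f i (slam F w ω)).eval s| ≤
          Real.exp (C * (e + 1)) * |(f i (slam F w ω)).eval (F.t ω)| := by
  classical
  obtain ⟨C, hC, h⟩ := one K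
  refine ⟨C, hC, ?_⟩
  intro m J F A w X e η N f hp hA hf hw he hη hH hX
  obtain ⟨Bad, hBad'⟩ : ∃ Bad : Fin N → F.Ω → Prop, Bad = fun i ω => A ω ∧
      ¬ ∀ s, |s - F.t ω| ≤ 2 / 2 ^ w → |(f i (slam F w ω)).eval s| ≤
        Real.exp (C * (e + 1)) * |(f i (slam F w ω)).eval (F.t ω)| := ⟨_, rfl⟩
  have hBad : ∀ i ω, Bad i ω ↔ (A ω ∧ ¬ ∀ s, |s - F.t ω| ≤ 2 / 2 ^ w →
      |(f i (slam F w ω)).eval s| ≤ Real.exp (C * (e + 1)) *
        |(f i (slam F w ω)).eval (F.t ω)|) := fun i ω => by rw [hBad']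
  have hsmall : ∀ i, Pe F.p (Bad i) < η * Pe F.p A := by
    intro i
    by_contra hcon
    push Not at hcon
    have hpos : 0 < Pe F.p (Bad i) := lt_of_lt_of_le (by positivity) hcon
    have hlaw : IsLaw (cond F.p (Bad i) True) := by
      exact Pool.K2S.isLaw_cond hp hpos
    obtain ⟨ω, hω, hb⟩ := h m J F (cond F.p (Bad i) True) w X e (f i) hlaw (hf i) hw he
      (hH (Bad i) (fun ω hω => ((hBad i ω).1 hω).1) hcon) hX
    have h1 : Bad i ω := by
      have := ((cond_pos_iff hp.nonneg (Bad i) True ω).1 hω).2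
      rw [this]
      trivial
    exact ((hBad i ω).1 h1).2 hb
  obtain ⟨P, hP⟩ : ∃ P : F.Ω → Prop, P = fun ω => A ω ∧ ∀ i, ¬ Bad i ω := ⟨_, rfl⟩
  have hP' : ∀ ω, P ω ↔ (A ω ∧ ∀ i, ¬ Bad i ω) := fun ω => by rw [hP]
  refine ⟨P, fun ω hω => ((hP' ω).1 hω).1, ?_, fun ω hω i s hs => ?_⟩
  · have h1 : Pe F.p A ≤ Pe F.p P + ∑ i, Pe F.p (Bad i) := by
      have e1 : ∑ i, Pe F.p (Bad i) = ∑ ω, ∑ i, if Bad i ω then F.p ω else 0 := by
        rw [Finset.sum_comm]
        exact Finset.sum_congr rfl fun i _ => Pe_eq _ _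
      rw [e1, Pe_eq, Pe_eq, ← Finset.sum_add_distrib]
      refine Finset.sum_le_sum fun ω _ => ?_
      have h0 := hp.nonneg ω
      have h0' : ∀ i, 0 ≤ if Bad i ω then F.p ω else 0 := fun i => by
        split_ifs
        · exact h0
        · exact le_rfl
      have h2 : 0 ≤ ∑ i, if Bad i ω then F.p ω else 0 := Finset.sum_nonneg fun i _ => h0' i
      have h4 : (0 : ℝ) ≤ if P ω then F.p ω else 0 := by
        split_ifs
        · exact h0
        · exact le_rfl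
      by_cases hAω : A ω
      · rw [if_pos hAω]
        by_cases hB : ∀ i, ¬ Bad i ω
        · rw [if_pos ((hP' ω).2 ⟨hAω, hB⟩)]
          linarith
        · push Not at hB
          obtain ⟨i, hi⟩ := hB
          have h3 : F.p ω ≤ ∑ i, if Bad i ω then F.p ω else 0 := by
            refine le_trans ?_ (Finset.single_le_sum (fun i _ => h0' i) (Finset.mem_univ i))
            rw [if_pos hi]
          linarith
      · rw [if_neg hAω]
        linarith
    have h2 : ∑ i, Pe F.p (Bad i) ≤ N * (η * Pe F.p A) := by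
      refine (Finset.sum_le_sum fun i _ => (hsmall i).le).trans (le_of_eq ?_)
      rw [Finset.sum_const, Finset.card_univ, Fintype.card_fin, nsmul_eq_mul]
    linarith
  · have h1 := ((hP' ω).1 hω).2 i
    by_contra hcon
    exact h1 ((hBad i ω).2 ⟨((hP' ω).1 hω).1, fun hh => hcon (hh s hs)⟩)

end Pool.GEN.Rt
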