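import Mathlib.Analysis.Calculus.Monotone
import Mathlib.Analysis.BoundedVariation
import Mathlib.MeasureTheory.Measure.Lebesgue.Basic

/-!
# Almost every point is a point of linear growth, for countable families

`upd`: a countable family of real functions monotone on an interval: at almost every point `t` of
the interval each of them satisfies `|f (t + o) - f t| <= V |o|` for small `o` (with `V` and the
range of `o` depending on the function and on `t`).  `updG` allows `f t + C t` monotone, `bvG`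
locally bounded variation; `dia` is the form for functions of two variables on diagonals;
`unf` makes the constants uniform for finitely many functions on a set of positive measure.
-/

set_option autoImplicit false

namespace Pool.GEN.Upd

open MeasureTheory

/-- Linear growth at a point. -/
def Lg (f : ℝ → ℝ) (t : ℝ) : Prop :=
  ∃ V o0 : ℝ, 0 ≤ V ∧ 0 < o0 ∧ ∀ o : ℝ, |o| < o0 → |f (t + o) - f t| ≤ V * |o|

theorem Lg.of_diff {f : ℝ → ℝ} {t : ℝ} (h : DifferentiableAt ℝ f t) : Lg f t := by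
  have h1 := h.hasDerivAt.hasFDerivAt.isBigO_sub
  obtain ⟨c, hc, h2⟩ := h1.exists_pos
  rw [Asymptotics.isBigOWith_iff] at h2
  obtain ⟨δ, hδ, h3⟩ := Metric.eventually_nhds_iff.1 h2
  refine ⟨c, δ, hc.le, hδ, fun o ho => ?_⟩
  have := h3 (y := t + o) (by rw [Real.dist_eq]; simpa using ho)
  simpa using this

theorem Lg.up {f : ℝ → ℝ} {t : ℝ} (h : Lg f t) :
    ∃ V o0 : ℝ, 0 ≤ V ∧ 0 < o0 ∧ ∀ o : ℝ, 0 < o → o < o0 → f (t + o) ≤ f t + V * o := by
  obtain ⟨V, o0, hV, h0, h⟩ := h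
  refine ⟨V, o0, hV, h0, fun o h1 h2 => ?_⟩
  have := h o (by rwa [abs_of_pos h1])
  rw [abs_of_pos h1] at this
  linarith [le_abs_self (f (t + o) - f t)]

theorem Lg.down {f : ℝ → ℝ} {t : ℝ} (h : Lg f t) :
    ∃ V o0 : ℝ, 0 ≤ V ∧ 0 < o0 ∧ ∀ o : ℝ, 0 < o → o < o0 → f t - V * o ≤ f (t - o) := by
  obtain ⟨V, o0, hV, h0, h⟩ := h
  refine ⟨V, o0, hV, h0, fun o h1 h2 => ?_⟩
  have := h (-o) (by rwa [abs_neg, abs_of_pos h1])
  rw [abs_neg, abs_of_pos h1, ← sub_eq_add_neg] at this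
  linarith [neg_abs_le (f (t - o) - f t)]

theorem bvG {ι : Type*} [Countable ι] (f : ι → ℝ → ℝ) (a b : ℝ)
    (h : ∀ i, LocallyBoundedVariationOn (f i) (Set.Icc a b)) :
    ∀ᵐ t ∂(volume.restrict (Set.Ioo a b)), ∀ i, Lg (f i) t := by
  rw [ae_all_iff]
  intro i
  rw [ae_restrict_iff' measurableSet_Ioo]
  filter_upwards [(h i).ae_differentiableWithinAt_of_mem] with t ht hm
  exact Lg.of_diff ((ht (Set.Ioo_subset_Icc_self hm)).differentiableAt
    (Icc_mem_nhds hm.1 hm.2))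

/-- Monotone families. -/
theorem upd {ι : Type*} [Countable ι] (f : ι → ℝ → ℝ) (a b : ℝ)
    (h : ∀ i, MonotoneOn (f i) (Set.Icc a b)) :
    ∀ᵐ t ∂(volume.restrict (Set.Ioo a b)), ∀ i, Lg (f i) t :=
  bvG f a b fun i => (h i).locallyBoundedVariationOn

theorem updA {ι : Type*} [Countable ι] (f : ι → ℝ → ℝ) (a b : ℝ)
    (h : ∀ i, AntitoneOn (f i) (Set.Icc a b)) :
    ∀ᵐ t ∂(volume.restrict (Set.Ioo a b)), ∀ i, Lg (f i) t := by
  have h1 := upd (fun i t => - f i t) a b fun i => (h i).neg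
  filter_upwards [h1] with t ht i
  obtain ⟨V, o0, hV, h0, h⟩ := ht i
  refine ⟨V, o0, hV, h0, fun o ho => ?_⟩
  have := h o ho
  rw [show - f i (t + o) - - f i t = -(f i (t + o) - f i t) by ring, abs_neg] at this
  exact this

/-- `f t + C t` monotone (for instance: `f` does not fall faster than `C`). -/
theorem updG {ι : Type*} [Countable ι] (f : ι → ℝ → ℝ) (C : ι → ℝ) (a b : ℝ)
    (h : ∀ i, MonotoneOn (fun t => f i t + C i * t) (Set.Icc a b)) :
    ∀ᵐ t ∂(volume.restrict (Set.Ioo a b)), ∀ i, Lg (f i) t := by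
  have h1 := upd (fun i t => f i t + C i * t) a b h
  filter_upwards [h1] with t ht i
  obtain ⟨V, o0, hV, h0, h⟩ := ht i
  refine ⟨V + |C i|, o0, by positivity, h0, fun o ho => ?_⟩
  have h2 := h o ho
  have h3 : f i (t + o) - f i t = (f i (t + o) + C i * (t + o) - (f i t + C i * t)) - C i * o := by
    ring
  rw [h3]
  refine (abs_sub _ _).trans ?_
  rw [abs_mul]
  linarith

/-- Functions of two variables on diagonals, with countably many base points. -/
theorem dia {ι κ : Type*} [Countable ι] [Countable κ] (β : ι → ℝ → ℝ → ℝ) (a w : κ → ℝ) (b : ℝ)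
    (h : ∀ i k, MonotoneOn (fun t => β i (a k + t) (w k + t)) (Set.Icc 0 b)) :
    ∀ᵐ t ∂(volume.restrict (Set.Ioo 0 b)), ∀ i k, ∃ V o0 : ℝ, 0 ≤ V ∧ 0 < o0 ∧
      ∀ o : ℝ, 0 < o → o < o0 →
        β i (a k + t + o) (w k + t + o) ≤ β i (a k + t) (w k + t) + V * o := by
  have h1 := upd (fun (x : ι × κ) t => β x.1 (a x.2 + t) (w x.2 + t)) 0 b fun x => h x.1 x.2
  filter_upwards [h1] with t ht i k
  obtain ⟨V, o0, hV, h0, h⟩ := (ht (i, k)).up
  refine ⟨V, o0, hV, h0, fun o h1 h2 => ?_⟩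
  have := h o h1 h2
  simpa [add_assoc] using this

/-- Two-sided form on diagonals. -/
theorem dia2 {ι κ : Type*} [Countable ι] [Countable κ] (β : ι → ℝ → ℝ → ℝ) (a w : κ → ℝ) (b : ℝ)
    (h : ∀ i k, MonotoneOn (fun t => β i (a k + t) (w k + t)) (Set.Icc 0 b)) :
    ∀ᵐ t ∂(volume.restrict (Set.Ioo 0 b)), ∀ i k, ∃ V o0 : ℝ, 0 ≤ V ∧ 0 < o0 ∧
      ∀ o : ℝ, |o| < o0 →
        |β i (a k + t + o) (w k + t + o) - β i (a k + t) (w k + t)| ≤ V * |o| := by
  have h1 := upd (fun (x : ι × κ) t => β x.1 (a x.2 + t) (w x.2 + t)) 0 b fun x => h x.1 x.2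
  filter_upwards [h1] with t ht i k
  obtain ⟨V, o0, hV, h0, h⟩ := ht (i, k)
  refine ⟨V, o0, hV, h0, fun o h1 => ?_⟩
  have := h o h1
  simpa [add_assoc] using this

/-- On a set of positive measure where finitely many functions have linear growth there is a subset
of positive measure with common constants. -/
theorem unf {ι : Type*} [Finite ι] (f : ι → ℝ → ℝ) (S : Set ℝ) (hS : volume S ≠ 0)
    (h : ∀ t ∈ S, ∀ i, Lg (f i) t) :
    ∃ (n : ℕ) (S' : Set ℝ), S' ⊆ S ∧ volume S' ≠ 0 ∧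
      ∀ t ∈ S', ∀ i, ∀ o : ℝ, |o| < 1 / ((n : ℝ) + 1) → |f i (t + o) - f i t| ≤ n * |o| := by
  classical
  cases nonempty_fintype ι
  set T : ℕ → Set ℝ := fun n => {t ∈ S | ∀ i, ∀ o : ℝ, |o| < 1 / ((n : ℝ) + 1) →
    |f i (t + o) - f i t| ≤ n * |o|} with hT
  have hU : S ⊆ ⋃ n, T n := by
    intro t ht
    choose V o0 hV h0 hh using h t ht
    obtain ⟨N1, hN1⟩ := exists_nat_ge (∑ i, V i)
    obtain ⟨N2, hN2⟩ := exists_nat_ge (∑ i, 1 / o0 i)
    refine Set.mem_iUnion.2 ⟨max N1 N2, ht, fun i o ho => ?_⟩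
    have hVi : V i ≤ ((max N1 N2 : ℕ) : ℝ) := by
      have h1 : V i ≤ ∑ i, V i := Finset.single_le_sum (fun j _ => hV j) (Finset.mem_univ i)
      have h2 : (N1 : ℝ) ≤ ((max N1 N2 : ℕ) : ℝ) := by exact_mod_cast le_max_left _ _
      linarith
    have ho2 : 1 / o0 i ≤ ((max N1 N2 : ℕ) : ℝ) := by
      have h1 : 1 / o0 i ≤ ∑ i, 1 / o0 i :=
        Finset.single_le_sum (f := fun i => 1 / o0 i) (fun j _ => (one_div_pos.2 (h0 j)).le)
          (Finset.mem_univ i)
      have h2 : (N2 : ℝ) ≤ ((max N1 N2 : ℕ) : ℝ) := by exact_mod_cast le_max_right _ _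
      linarith
    have h3 : 1 / (((max N1 N2 : ℕ) : ℝ) + 1) ≤ o0 i := by
      rw [div_le_iff₀ (by positivity)]
      have h4 := mul_le_mul_of_nonneg_left ho2 (h0 i).le
      rw [mul_one_div_cancel (h0 i).ne'] at h4
      have := h0 i
      nlinarith
    exact (hh i o (ho.trans_le h3)).trans (mul_le_mul_of_nonneg_right hVi (abs_nonneg _))
  by_contra hc
  push Not at hc
  have hz : ∀ n, volume (T n) = 0 := by
    intro n
    by_contra hn
    obtain ⟨t, ht, i, o, ho, hlt⟩ := hc n (T n) (fun t ht => ht.1) hn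
    exact absurd (ht.2 i o ho) (not_le.2 hlt)
  exact hS (measure_mono_null hU (measure_iUnion_null hz))

end Pool.GEN.Upd
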